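import Mathlib
import Pool.Agent.Q99.CL.Defs
import Pool.Agent.Q99.CL.Main

set_option autoImplicit false

/-!
# The spectrum of compact Lipschitz operators

For a complete pointed metric space `M`, bounded or not, and a self-map `f` whose linearization
`T : F(M) → F(M)` is compact, the nonzero spectrum of `T` consists of the roots of unity of the orders
of the periodic points of `f`.

Proof. A totally bounded subset of `F(M)` is uniformly small on the Lipschitz functions of norm one
which vanish on a suitable finite subset of `M`. Testing the images of molecules with small bumps, one
gets that `f` contracts by any given factor at small distances; testing the images of the normalized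
evaluations with `max 0 (d(., 0) - R)`, one gets `d(f x, 0) ≤ R + d(x, 0) / 2`. Hence every orbit is
bounded, has totally bounded tail, and approaches a periodic orbit faster than any geometric sequence.
A nonzero point of the spectrum is an eigenvalue of the dual operator (Schauder, Fredholm), which gives
a nonzero Lipschitz function `g` with `g ∘ f = λ g`; by the fast convergence of the orbits, `g` does
not vanish at some periodic point.
-/

namespace Pool.Agent.Results.MP_e86906_an.SpectrumUnbounded

open Q99.CL

/-- Let `M` be a complete metric space with base point `o`, let `f : M → M`, and let `T` be a compact
operator on the complex Lipschitz-free space of `M` such that `T (δ x) = δ (f x)` for all `x`. Then the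
set `A(f)` of the orders of the periodic points of `f` different from `o` is finite, and
`σ(T) \ {0}` is the union of the groups of `n`-th roots of unity, `n ∈ A(f)`. -/
theorem result (M : Type) [MetricSpace M] [CompleteSpace M] (o : M) (f : M → M)
    (T : FreeSp M o →L[ℂ] FreeSp M o) (hT : ∀ x, T (del o x) = del o (f x))
    (hc : IsCompactOperator T) :
    (periodSet f o).Finite ∧ spectrum ℂ T \ {0} = ⋃ n ∈ periodSet f o, {z : ℂ | z ^ n = 1} :=
  main hT hc

end Pool.Agent.Results.MP_e86906_an.SpectrumUnbounded
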